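import Pool.Agent.Helper65.CG.Defs2

/-!
# UB-P: pigeonhole over the clustering data
-/

set_option autoImplicit false

namespace Pool.Agent.Helper65.CG

open scoped Classical
open Pool.Agent.Helper65.CliqueGame

variable {n q m : ℕ}

namespace ClusteredAux

lemma pig {α β : Type} (A : Finset α) (hA : A.Nonempty) (T : Finset β) (f : α → β)
    (hf : ∀ a ∈ A, f a ∈ T) : ∃ y ∈ T, ∃ A' ⊆ A, A'.Nonempty ∧ (∀ a ∈ A', f a = y) ∧
      A.card ≤ T.card * A'.card := by
  obtain ⟨a0, ha0⟩ := hA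
  have hT : T.Nonempty := ⟨f a0, hf a0 ha0⟩
  obtain ⟨y, hy, hmax⟩ := Finset.exists_max_image T
    (fun y => (A.filter (fun a => f a = y)).card) hT
  have hcard : A.card ≤ T.card * (A.filter (fun a => f a = y)).card := by
    rw [Finset.card_eq_sum_card_fiberwise hf]
    exact Finset.sum_le_card_nsmul _ _ _ hmax
  refine ⟨y, hy, A.filter (fun a => f a = y), Finset.filter_subset _ _, ?_,
    fun a ha => (Finset.mem_filter.1 ha).2, hcard⟩
  rw [← Finset.card_pos]
  rcases Nat.eq_zero_or_pos (A.filter (fun a => f a = y)).card with h | h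
  · rw [h, mul_zero] at hcard
    have := Finset.card_pos.2 ⟨a0, ha0⟩
    omega
  · exact h

/-- the number of subsets with at most `H` elements -/
lemma card_small {X : Type} [Fintype X] (H : ℕ) :
    ((Finset.univ : Finset (Finset X)).filter (fun h => h.card ≤ H)).card
      ≤ (Fintype.card X + 1) ^ H := by
  have h1 : ((Finset.univ : Finset (Finset X)).filter (fun h => h.card ≤ H))
      ⊆ (Finset.univ : Finset (Fin H → Option X)).image
        (fun g => Finset.univ.filter (fun x => ∃ i, g i = some x)) := by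
    intro h hh
    rw [Finset.mem_filter] at hh
    rw [Finset.mem_image]
    refine ⟨fun i => h.toList[(i : ℕ)]?, Finset.mem_univ _, ?_⟩
    ext x
    rw [Finset.mem_filter]
    constructor
    · rintro ⟨_, i, hi⟩
      rw [← Finset.mem_toList]
      exact List.mem_of_getElem? hi
    · intro hx
      refine ⟨Finset.mem_univ _, ?_⟩
      rw [← Finset.mem_toList, List.mem_iff_getElem?] at hx
      obtain ⟨i, hi⟩ := hx
      have hlt : i < h.toList.length := by
        by_contra hcon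
        rw [List.getElem?_eq_none (by omega)] at hi
        exact absurd hi (by simp)
      rw [Finset.length_toList] at hlt
      exact ⟨⟨i, lt_of_lt_of_le hlt hh.2⟩, hi⟩
  refine (Finset.card_le_card h1).trans (Finset.card_image_le.trans ?_)
  rw [Finset.card_univ, Fintype.card_pi_const, Fintype.card_option]

/-- the data of a clustering as a tuple -/
def code (D : Clu q m) : Finset (Fin q) × Finset (Fin q) ×
    Finset ((Fin q × Fin q) × (Fin q × Fin (2 * m))) × (Fin q → Fin q) :=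
  (D.S, D.G, D.h, D.cls)

lemma code_inj {D D' : Clu q m} (h : code D = code D') : D = D' := by
  cases D; cases D'
  simp only [code, Prod.mk.injEq] at h
  obtain ⟨h1, h2, h3, h4⟩ := h
  subst h1; subst h2; subst h3; subst h4
  rfl

end ClusteredAux

open ClusteredAux in
theorem clustered (ℓ : Sym2 (Fin n) → ℕ) (vt : ℕ → Fin (2 * m) → Fin n)
    (A : Finset (Fin q → Fin n)) (hA : A.Nonempty) (hn : 1 ≤ n) {s H : ℕ}
    (Pred : (Fin q → Fin n) → Clu q m → Prop)
    (hdat : ∀ Z ∈ A, ∃ D : Clu q m, D.S.card ≤ s ∧ D.h.card ≤ H ∧ Pred Z D) :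
    ∃ A' ⊆ A, A'.Nonempty ∧ ∃ D : Clu q m, D.S.card ≤ s ∧ (∀ Z ∈ A', Pred Z D) ∧
      (∀ Z ∈ A', ∀ Z' ∈ A', ∀ i ∈ D.S, Z i = Z' i) ∧
      lb A.card - lb A'.card ≤ 2 * q + q * lb q +
        H * Real.logb 2 (2 * m * (q : ℝ) ^ 3 + 1) + s * Lg n := by
  have hch : ∀ Z : Fin q → Fin n, ∃ D : Clu q m,
      Z ∈ A → D.S.card ≤ s ∧ D.h.card ≤ H ∧ Pred Z D := by
    intro Z
    by_cases hZ : Z ∈ A
    · obtain ⟨D, hD⟩ := hdat Z hZ
      exact ⟨D, fun _ => hD⟩
    · exact ⟨⟨∅, ∅, ∅, id⟩, fun h => absurd h hZ⟩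
  choose D hD using hch
  -- first pigeonhole
  set T : Finset (Finset (Fin q) × Finset (Fin q) ×
      Finset ((Fin q × Fin q) × (Fin q × Fin (2 * m))) × (Fin q → Fin q)) :=
    Finset.univ ×ˢ Finset.univ ×ˢ (Finset.univ.filter
      (fun h : Finset ((Fin q × Fin q) × (Fin q × Fin (2 * m))) => h.card ≤ H)) ×ˢ
        Finset.univ with hT
  obtain ⟨c, _, A₁, hA₁A, ⟨Z₁, hZ₁⟩, hA₁c, hcard1⟩ := pig A hA T (fun Z => code (D Z)) (by
    intro Z hZ
    rw [hT]
    simp only [Finset.mem_product, Finset.mem_univ, Finset.mem_filter, true_and, and_true]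
    exact (hD Z hZ).2.1)
  have hDeq : ∀ Z ∈ A₁, D Z = D Z₁ := by
    intro Z hZ
    exact code_inj ((hA₁c Z hZ).trans (hA₁c Z₁ hZ₁).symm)
  -- second pigeonhole
  obtain ⟨v, _, A', hA'A₁, hne2, hA'v, hcard2⟩ := pig A₁ ⟨Z₁, hZ₁⟩
    (Finset.univ : Finset ({i // i ∈ (D Z₁).S} → Fin n)) (fun Z i => Z i.1)
    (fun _ _ => Finset.mem_univ _)
  refine ⟨A', hA'A₁.trans hA₁A, hne2, D Z₁, (hD Z₁ (hA₁A hZ₁)).1, ?_, ?_, ?_⟩
  · intro Z hZ
    have h2 := (hD Z (hA₁A (hA'A₁ hZ))).2.2
    rwa [hDeq Z (hA'A₁ hZ)] at h2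
  · intro Z hZ Z' hZ' i hi
    have h1 := congrFun (hA'v Z hZ) ⟨i, hi⟩
    have h2 := congrFun (hA'v Z' hZ') ⟨i, hi⟩
    exact h1.trans h2.symm
  · have hTcard : T.card ≤ 2 ^ q * (2 ^ q * ((2 * m * q ^ 3 + 1) ^ H * q ^ q)) := by
      rw [hT, Finset.card_product, Finset.card_product, Finset.card_product]
      have e1 : (Finset.univ : Finset (Finset (Fin q))).card = 2 ^ q := by
        rw [Finset.card_univ, Fintype.card_finset, Fintype.card_fin]
      have e2 : (Finset.univ : Finset (Fin q → Fin q)).card = q ^ q := by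
        simp
      have e3 : Fintype.card ((Fin q × Fin q) × (Fin q × Fin (2 * m))) = 2 * m * q ^ 3 := by
        rw [Fintype.card_prod, Fintype.card_prod, Fintype.card_prod, Fintype.card_fin,
          Fintype.card_fin]
        ring
      have e4 := card_small (X := (Fin q × Fin q) × (Fin q × Fin (2 * m))) H
      rw [e3] at e4
      rw [e1, e2]
      gcongr
    have hScard : (Finset.univ : Finset ({i // i ∈ (D Z₁).S} → Fin n)).card ≤ n ^ s := by
      have e1 : (Finset.univ : Finset ({i // i ∈ (D Z₁).S} → Fin n)).card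
          = n ^ (D Z₁).S.card := by
        simp
      rw [e1]
      exact Nat.pow_le_pow_right hn (hD Z₁ (hA₁A hZ₁)).1
    have hA'pos : 0 < A'.card := Finset.card_pos.2 hne2
    have hApos : 0 < A.card := Finset.card_pos.2 hA
    have htot : A.card ≤ 2 ^ q * (2 ^ q * ((2 * m * q ^ 3 + 1) ^ H * q ^ q)) *
        (n ^ s * A'.card) := by
      calc A.card ≤ T.card * A₁.card := hcard1
        _ ≤ T.card * (Finset.univ.card * A'.card) := Nat.mul_le_mul_left _ hcard2
        _ ≤ _ := Nat.mul_le_mul hTcard (Nat.mul_le_mul_right _ hScard)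
    have hr : (A.card : ℝ) ≤ 2 ^ q * (2 ^ q * ((2 * m * (q : ℝ) ^ 3 + 1) ^ H * (q : ℝ) ^ q)) *
        ((n : ℝ) ^ s * A'.card) := by exact_mod_cast htot
    have hqq : (q : ℝ) ^ q ≠ 0 := by
      have := Nat.pow_self_pos (n := q)
      exact_mod_cast this.ne'
    have hn0 : (n : ℝ) ≠ 0 := by positivity
    have hA'0 : (A'.card : ℝ) ≠ 0 := by exact_mod_cast hA'pos.ne'
    have hN0 : (2 * m * (q : ℝ) ^ 3 + 1) ≠ 0 := by positivity
    have h2q : (2 : ℝ) ^ q ≠ 0 := by positivity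
    have h2 : Real.logb 2 (A.card : ℝ) ≤ Real.logb 2 (2 ^ q * (2 ^ q *
        ((2 * m * (q : ℝ) ^ 3 + 1) ^ H * (q : ℝ) ^ q)) * ((n : ℝ) ^ s * A'.card)) :=
      Real.logb_le_logb_of_le (by norm_num) (by exact_mod_cast hApos) hr
    rw [Real.logb_mul (mul_ne_zero h2q (mul_ne_zero h2q (mul_ne_zero (pow_ne_zero _ hN0) hqq)))
        (mul_ne_zero (pow_ne_zero _ hn0) hA'0),
      Real.logb_mul h2q (mul_ne_zero h2q (mul_ne_zero (pow_ne_zero _ hN0) hqq)),
      Real.logb_mul h2q (mul_ne_zero (pow_ne_zero _ hN0) hqq),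
      Real.logb_mul (pow_ne_zero _ hN0) hqq, Real.logb_mul (pow_ne_zero _ hn0) hA'0,
      Real.logb_pow, Real.logb_pow, Real.logb_pow, Real.logb_pow,
      Real.logb_self_eq_one (by norm_num)] at h2
    unfold lb Lg
    linarith

end Pool.Agent.Helper65.CG
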